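import Pool.Agent.H59.L.S8.W558.S2.Stms2
import Pool.Agent.H59.L.S8.W558.U2

set_option autoImplicit false
set_option linter.unusedVariables false

/-!
W558b-NZ of helper558's project on MP_19ffc6_ag: a divisor which is transversal to the fibres over
the base has no component which lies over a curve of the base.
-/

universe u

open Polynomial

namespace Pool.Agent.W63.R558Nz

open Pool.Agent.W558

/-- A minimal prime over a radical ideal is that ideal up to a denominator. -/
theorem exists_mul_mem_of_minimal {A : Type u} [CommRing A] {I q : Ideal A} (hI : I.IsRadical)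
    (hq : q ∈ I.minimalPrimes) {f : A} (hf : f ∈ q) : ∃ s, s ∉ q ∧ s * f ∈ I := by
  have hqp : q.IsPrime := hq.1.1
  have hIq : I ≤ q := hq.1.2
  by_contra hcon
  push Not at hcon
  have hdis : Disjoint (I : Set A) ((q.primeCompl ⊔ Submonoid.powers f : Submonoid A) : Set A) := by
    rw [Set.disjoint_left]
    intro z hz hz2
    obtain ⟨s, hs, t, ht, hst⟩ := Submonoid.mem_sup.1 hz2
    obtain ⟨n, rfl⟩ := ht
    have hs' : s ∉ q := hs
    rcases Nat.eq_zero_or_pos n with hn | hn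
    · subst hn
      simp only [pow_zero, mul_one] at hst
      rw [← hst] at hz
      exact hs' (hIq hz)
    · apply hcon s hs'
      apply hI
      refine ⟨n, ?_⟩
      obtain ⟨m, rfl⟩ : ∃ m, n = m + 1 := ⟨n - 1, by omega⟩
      have e : (s * f) ^ (m + 1) = s ^ m * (s * f ^ (m + 1)) := by ring
      rw [e, hst]
      exact I.mul_mem_left _ hz
  obtain ⟨p, hp, hIp, hd⟩ := Ideal.exists_le_prime_disjoint I _ hdis
  have hpq : p ≤ q := by
    intro z hz
    by_contra hzq
    exact Set.disjoint_left.1 hd hz (Submonoid.mem_sup_left (show z ∈ q.primeCompl from hzq))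
  have hqp' : q ≤ p := hq.2 ⟨hp, hIp⟩ hpq
  exact Set.disjoint_left.1 hd (hqp' hf)
    (Submonoid.mem_sup_right (Submonoid.mem_powers f))

/-- At a point which is not generic there is a nonzero tangent vector transversal to it. -/
theorem exists_trans {k B κ : Type u} [Field k] [CommRing B] [IsDomain B] [Algebra k B]
    [PerfectField k] [Algebra.FiniteType k B] [Field κ] [Algebra k κ] (φ : B →ₐ[k] κ) {c : B}
    (hc : φ c = 0) (hc0 : c ≠ 0) : ∃ f : B, φ f = 0 ∧ ∃ D : TV φ, D.D f ≠ 0 := by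
  have hN : IsNoetherianRing B := Algebra.FiniteType.isNoetherianRing k B
  obtain ⟨f, hf, hf2⟩ : ∃ f : B, φ f = 0 ∧ ∀ s, φ s ≠ 0 → s * f ∉ RingHom.ker φ ^ 2 ⊔ ⊥ := by
    by_contra hcon
    push Not at hcon
    rw [sup_bot_eq] at hcon
    have hp : (RingHom.ker φ).IsPrime := RingHom.ker_isPrime φ
    let L := Localization.AtPrime (RingHom.ker φ)
    have hm : IsLocalRing.maximalIdeal L = (RingHom.ker φ).map (algebraMap B L) :=
      (IsLocalization.AtPrime.map_eq_maximalIdeal (RingHom.ker φ) L).symm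
    have hNB : IsNoetherianRing L :=
      IsLocalization.isNoetherianRing (RingHom.ker φ).primeCompl L hN
    have h1 : IsLocalRing.maximalIdeal L ≤
        IsLocalRing.maximalIdeal L • IsLocalRing.maximalIdeal L := by
      conv_lhs => rw [hm]
      rw [Ideal.map_le_iff_le_comap]
      intro f hf
      obtain ⟨s, hs, h2⟩ := hcon f hf
      rw [Ideal.mem_comap]
      have h3 : algebraMap B L (s * f) ∈
          IsLocalRing.maximalIdeal L • IsLocalRing.maximalIdeal L := by
        rw [smul_eq_mul, ← pow_two, hm, ← Ideal.map_pow]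
        exact Ideal.mem_map_of_mem _ h2
      rw [map_mul] at h3
      have hu : IsUnit (algebraMap B L s) := IsLocalization.map_units L
        (⟨s, fun h4 => hs h4⟩ : (RingHom.ker φ).primeCompl)
      exact (Ideal.unit_mul_mem_iff_mem _ hu).1 h3
    have h2 : IsLocalRing.maximalIdeal L = ⊥ :=
      Submodule.eq_bot_of_le_smul_of_le_jacobson_bot _ _ (IsNoetherian.noetherian _) h1
        (IsLocalRing.maximalIdeal_le_jacobson _)
    have h4 : algebraMap B L c ∈ IsLocalRing.maximalIdeal L := by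
      rw [hm]
      exact Ideal.mem_map_of_mem _ hc
    rw [h2, Ideal.mem_bot] at h4
    have h5 := IsLocalization.injective L
      (Ideal.primeCompl_le_nonZeroDivisors (RingHom.ker φ))
    rw [← map_zero (algebraMap B L)] at h4
    exact hc0 (h5 h4)
  obtain ⟨D0, hD0, -⟩ := exists_TV φ ⊥ bot_le hf hf2
  exact ⟨f, hf, D0, hD0⟩

/-- The point of a prime ideal. -/
theorem exists_pt {k A : Type u} [Field k] [CommRing A] [Algebra k A] (q : Ideal A)
    [q.IsPrime] : ∃ (κ : Type u) (_ : Field κ) (_ : Algebra k κ) (φ : A →ₐ[k] κ),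
    ∀ z, φ z = 0 ↔ z ∈ q := by
  let κ := FractionRing (A ⧸ q)
  let φ : A →ₐ[k] κ := (IsScalarTower.toAlgHom k (A ⧸ q) κ).comp (Ideal.Quotient.mkₐ k q)
  refine ⟨κ, inferInstance, inferInstance, φ, ?_⟩
  intro z
  change algebraMap _ κ (Ideal.Quotient.mk q z) = 0 ↔ _
  rw [FaithfulSMul.algebraMap_eq_zero_iff, Ideal.Quotient.eq_zero_iff_mem]

theorem main : Pool.Agent.W558.S2_nz.{u} := by
  intro k K _ _ _ _ I _ A B hBA x hx y b hy hb hy0 hb0 hx0 hsm hft hsnc hbx hsub hver c hc hc0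
    a ha hca
  by_contra hay
  set y' : A := ⟨y, hy⟩ with hy'
  set a' : A := ⟨a, ha⟩ with ha'
  set c' : A := ⟨c, hBA hc⟩ with hc'
  have hyTV : ∀ (κ : Type u) [Field κ] [Algebra k κ] (φ : A →ₐ[k] κ), φ y' = 0 →
      ∃ D : TV φ, D.D y' ≠ 0 := by
    intro κ _ _ φ hφ
    obtain ⟨D, hD, -⟩ := hsnc κ φ none hy hφ
    refine ⟨D, ?_⟩
    have : D.D y' = 1 := hD
    rw [this]
    exact one_ne_zero
  have hsmq := smooth_quot y' hyTV
  have hred := isReduced_of_smooth k (A ⧸ Ideal.span {y'})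
  have hrad : (Ideal.span {y'}).IsRadical := (Ideal.isRadical_iff_quotient_reduced _).2 hred
  have ha'n : a' ∉ Ideal.span {y'} := by
    intro h
    obtain ⟨e, he⟩ := Ideal.mem_span_singleton.1 h
    apply hay
    have h1 : a = y * (e : K) := congrArg Subtype.val he
    rw [h1, mul_div_cancel_left₀ _ hy0]
    exact e.2
  obtain ⟨q, hq, haq⟩ : ∃ q ∈ (Ideal.span {y'}).minimalPrimes, a' ∉ q := by
    by_contra hcon
    push Not at hcon
    apply ha'n
    have h1 : a' ∈ sInf (Ideal.span {y'}).minimalPrimes := by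
      rw [Ideal.mem_sInf]
      intro q hq
      exact hcon q hq
    rw [Ideal.sInf_minimalPrimes, hrad.radical] at h1
    exact h1
  have hqp : q.IsPrime := hq.1.1
  have hIq : Ideal.span {y'} ≤ q := hq.1.2
  have hyq : y' ∈ q := hIq (Ideal.mem_span_singleton_self y')
  have hcq : c' ∈ q := by
    have h1 : c' * a' ∈ Ideal.span {y'} := by
      rw [Ideal.mem_span_singleton]
      refine ⟨⟨c * a / y, hca⟩, Subtype.ext ?_⟩
      change c * a = y * (c * a / y)
      rw [mul_div_cancel₀ _ hy0]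
    exact (hqp.mem_or_mem (hIq h1)).resolve_right haq
  -- the point
  obtain ⟨κ, iκ, iκ', φ, hφ0⟩ := exists_pt (k := k) q
  have hφy : φ y' = 0 := (hφ0 _).2 hyq
  -- no component of the boundary
  have hxq : ∀ i, (⟨x i, hx i⟩ : A) ∉ q := by
    intro i hxi
    obtain ⟨s, hs, hsx⟩ := exists_mul_mem_of_minimal hrad hq hxi
    obtain ⟨r, hr⟩ := Ideal.mem_span_singleton.1 hsx
    obtain ⟨D, hD1, hD2⟩ := hsnc κ φ (some i) (hx i) ((hφ0 _).2 hxi)
    have hD1' : D.D (⟨x i, hx i⟩ : A) = 1 := hD1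
    have hDy : D.D y' = 0 := hD2 none hy (by simp) hφy
    have h1 := congrArg D.D hr
    rw [D.leib, D.leib, hD1', hDy, hφy, (hφ0 _).2 hxi] at h1
    apply hs
    rw [← hφ0]
    simpa using h1
  have hbq : (⟨b, hBA hb⟩ : A) ∉ q := by
    intro hbq
    obtain ⟨N, hN⟩ := hbx
    have h1 : (∏ i, (⟨x i, hx i⟩ : A)) ^ N = (⟨b, hBA hb⟩ : A) * ⟨_, hN⟩ := by
      apply Subtype.ext
      push_cast
      rw [mul_div_cancel₀ _ hb0]
    have h2 : (∏ i, (⟨x i, hx i⟩ : A)) ^ N ∈ q := by
      rw [h1]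
      exact q.mul_mem_right _ hbq
    have h3 := hqp.mem_of_pow_mem N h2
    obtain ⟨i, -, hi⟩ := (Ideal.IsPrime.prod_mem_iff (s := Finset.univ)).1 h3
    exact hxq i hi
  -- the point of the base
  let φ0 : B →ₐ[k] κ := φ.comp (Subalgebra.inclusion hBA)
  have hφφ0 : ∀ e (he : e ∈ B), φ ⟨e, hBA he⟩ = φ0 ⟨e, he⟩ := fun e he => rfl
  obtain ⟨f, hf, D0, hD0⟩ := exists_trans φ0 (c := (⟨c, hc⟩ : B))
    (by rw [← hφφ0]; exact (hφ0 _).2 hcq) (fun h => hc0 (congrArg Subtype.val h))
  set f' : A := ⟨(f : K), hBA f.2⟩ with hf'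
  have hφf : φ f' = 0 := hf
  obtain ⟨D, hD⟩ := hsub κ φ φ0 hφφ0 (by
    rw [← hφφ0]
    exact fun h => hbq ((hφ0 _).1 h)) D0
  have hDf : D.D f' = D0.D f := hD f f.2
  obtain ⟨s, hs, hsf⟩ := exists_mul_mem_of_minimal hrad hq ((hφ0 _).1 hφf)
  obtain ⟨r, hr⟩ := Ideal.mem_span_singleton.1 hsf
  have hφs : φ s ≠ 0 := fun h => hs ((hφ0 _).1 h)
  have hφr : φ r ≠ 0 := by
    intro h0
    have h1 := congrArg D.D hr
    rw [D.leib, D.leib, hDf, hφf, hφy, h0] at h1
    simp only [zero_mul, add_zero] at h1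
    exact (mul_ne_zero hφs hD0) h1
  obtain ⟨D', hD'1, hD'2⟩ := hver κ φ hφy
  have hD'f : D'.D f' = 0 := hD'1 f f.2
  have h1 := congrArg D'.D hr
  rw [D'.leib, D'.leib, hD'f, hφf, hφy] at h1
  simp only [zero_mul, mul_zero, add_zero, zero_add] at h1
  exact (mul_ne_zero hφr hD'2) h1.symm

end Pool.Agent.W63.R558Nz
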